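import Mathlib
import Pool.Agent.Helper28.HN.Orb
import Pool.Agent.Helper23.HNG.Dbl
import Pool.Agent.Helper47.HN.Norm
import Pool.Agent.Helper47.NI.Closure

/-!
# Project HN: functions which vanish on all curves of the chain
-/

namespace Pool.Agent.Helper92.HN

open MvPolynomial Pool.Agent.Helper28.HN Pool.Agent.Helper47.HN Pool.Agent.Helper23.HNG

section hom

variable {m : ℕ} {K : Type*} [Field K]

/-- Homogenization: for a polynomial `N` there is a form `H` with `H(v) = v0^d N(v / v0)`. -/
theorem exists_homog (N : MvPolynomial (Fin (m + 1)) K) : ∃ (d : ℕ) (H : MvPolynomial (I m) K),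
    H.IsHomogeneous d ∧ aeval (aff (X : Fin (m + 1) → MvPolynomial (Fin (m + 1)) K)) H = N ∧
      ∀ (S : Type*) [Field S] [Algebra K S] (v : I m → S), v 0 ≠ 0 →
        aeval v H = v 0 ^ d * aeval (fun j : Fin (m + 1) => v j.succ / v 0) N := by
  classical
  refine ⟨N.totalDegree, ∑ j ∈ Finset.range (N.totalDegree + 1),
    X 0 ^ (N.totalDegree - j) * rename Fin.succ (homogeneousComponent j N), ?_, ?_, ?_⟩
  · refine IsHomogeneous.sum _ _ _ fun j hj => ?_
    have h1 : (X 0 ^ (N.totalDegree - j) : MvPolynomial (I m) K).IsHomogeneous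
        (N.totalDegree - j) := by
      have := (isHomogeneous_X K (0 : I m)).pow (N.totalDegree - j)
      rwa [one_mul] at this
    have h2 := (homogeneousComponent_isHomogeneous j N).rename_isHomogeneous (f := Fin.succ)
    have h3 := h1.mul h2
    rwa [Nat.sub_add_cancel (Nat.lt_succ_iff.mp (Finset.mem_range.mp hj))] at h3
  · rw [map_sum]
    have e : ∀ j, aeval (aff (X : Fin (m + 1) → MvPolynomial (Fin (m + 1)) K))
        (X 0 ^ (N.totalDegree - j) * rename Fin.succ (homogeneousComponent j N)) =
        homogeneousComponent j N := by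
      intro j
      rw [map_mul, map_pow, aeval_X, aeval_rename]
      have e1 : aff (X : Fin (m + 1) → MvPolynomial (Fin (m + 1)) K) 0 = 1 := rfl
      have e2 : aff (X : Fin (m + 1) → MvPolynomial (Fin (m + 1)) K) ∘ Fin.succ = X := rfl
      rw [e1, e2, one_pow, one_mul, aeval_X_left_apply]
    rw [Finset.sum_congr rfl fun j _ => e j, sum_homogeneousComponent]
  · intro S _ _ v hv
    have h0 : aeval (fun j : Fin (m + 1) => v j.succ / v 0) N =
        ∑ j ∈ Finset.range (N.totalDegree + 1),
        aeval (fun j : Fin (m + 1) => v j.succ / v 0) (homogeneousComponent j N) := by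
      rw [← map_sum, sum_homogeneousComponent]
    rw [h0, map_sum, Finset.mul_sum]
    refine Finset.sum_congr rfl fun j hj => ?_
    rw [map_mul, map_pow, aeval_X, aeval_rename]
    have hle : j ≤ N.totalDegree := Nat.lt_succ_iff.mp (Finset.mem_range.mp hj)
    have h1 : aeval (v ∘ Fin.succ) (homogeneousComponent j N) =
        v 0 ^ j * aeval (fun i : Fin (m + 1) => v i.succ / v 0) (homogeneousComponent j N) := by
      have e : (v ∘ Fin.succ) = fun i : Fin (m + 1) => v 0 * (v i.succ / v 0) := by
        funext i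
        rw [Function.comp_apply, mul_div_cancel₀ _ hv]
      rw [e, aeval_def, aeval_def, eval₂_eq, eval₂_eq, Finset.mul_sum]
      refine Finset.sum_congr rfl fun a ha => ?_
      have hn := (homogeneousComponent_isHomogeneous j N).degree_eq_sum_deg_support ha
      simp only [mul_pow]
      rw [Finset.prod_mul_distrib, Finset.prod_pow_eq_pow_sum, ← hn]
      ring
    rw [h1, ← mul_assoc, ← pow_add, Nat.sub_add_cancel hle]

theorem hom_scale {K S : Type*} [Field K] [CommRing S] [Algebra K S] {σ : Type*} {n : ℕ}
    {F : MvPolynomial σ K} (hF : F.IsHomogeneous n) (r : S) (v : σ → S) :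
    aeval (fun a => r * v a) F = r ^ n * aeval v F := by
  rw [aeval_def, aeval_def, eval₂_eq, eval₂_eq, Finset.mul_sum]
  refine Finset.sum_congr rfl fun a ha => ?_
  have hn := hF.degree_eq_sum_deg_support ha
  simp only [mul_pow]
  rw [Finset.prod_mul_distrib, Finset.prod_pow_eq_pow_sum, ← hn]
  ring

theorem lf_scale {S : Type*} [CommRing S] (c : Ix m → S) (r : Fin m) (a b : S) (x y : I m → S) :
    lf c r (fun i => a * x i) (fun i => b * y i) = a * b * lf c r x y := by
  simp only [lf, Finset.mul_sum]
  exact Finset.sum_congr rfl fun i _ => Finset.sum_congr rfl fun j _ => by ring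

theorem qf_scale {S : Type*} [CommRing S] (c : Ix m → S) (a b : S) (x y : I m → S) :
    qf c (fun i => a * x i) (fun i => a * x i) (fun i => b * y i) (fun i => b * y i) =
      a ^ 2 * b ^ 2 * qf c x x y y := by
  simp only [qf, Finset.mul_sum]
  exact Finset.sum_congr rfl fun i _ => Finset.sum_congr rfl fun j _ =>
    Finset.sum_congr rfl fun k _ => Finset.sum_congr rfl fun l _ => by ring

theorem onX_scale {S : Type*} [CommRing S] {c : Ix m → S} (a b : S) {x y : I m → S}
    (h : OnX c x y) : OnX c (fun i => a * x i) (fun i => b * y i) :=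
  ⟨fun r => by rw [lf_scale, h.1 r, mul_zero], by rw [qf_scale, h.2, mul_zero]⟩

/-- The affine point of a point with nonzero first coordinate. -/
theorem aff_div {S : Type*} [Field S] (v : I m → S) (hv : v 0 ≠ 0) :
    aff (fun j : Fin (m + 1) => v j.succ / v 0) = fun a => (v 0)⁻¹ * v a := by
  funext a
  refine Fin.cases ?_ (fun j => ?_) a
  · show (1 : S) = _
    rw [inv_mul_cancel₀ hv]
  · show v j.succ / v 0 = _
    rw [div_eq_mul_inv, mul_comm]

end hom

section index

/-- The involution over `y`. -/
def ixs (N : ℕ) : ℕ := if N = 0 then 0 else if N % 2 = 0 then N - 1 else N + 1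

/-- The involution over `x`. -/
def ixt (N : ℕ) : ℕ := if N % 2 = 0 then N + 1 else N - 1

theorem ixs_even {N : ℕ} (h : N % 2 = 0) (h0 : N ≠ 0) : ixs N = N - 1 := by
  unfold ixs
  rw [if_neg h0, if_pos h]

theorem ixs_odd {N : ℕ} (h : N % 2 = 1) : ixs N = N + 1 := by
  unfold ixs
  rw [if_neg (by omega), if_neg (by omega)]

theorem ixt_even {N : ℕ} (h : N % 2 = 0) : ixt N = N + 1 := by
  unfold ixt
  rw [if_pos h]

theorem ixt_odd {N : ℕ} (h : N % 2 = 1) : ixt N = N - 1 := by
  unfold ixt
  rw [if_neg (by omega)]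

theorem ixs_ixs (N : ℕ) : ixs (ixs N) = N := by
  rcases Nat.eq_zero_or_pos N with h | h
  · subst h
    rfl
  · rcases Nat.mod_two_eq_zero_or_one N with h2 | h2
    · rw [ixs_even h2 h.ne', ixs_odd (by omega)]
      omega
    · rw [ixs_odd h2, ixs_even (by omega) (by omega)]
      omega

theorem ixt_ixt (N : ℕ) : ixt (ixt N) = N := by
  rcases Nat.mod_two_eq_zero_or_one N with h2 | h2
  · rw [ixt_even h2, ixt_odd (by omega)]
    omega
  · rw [ixt_odd h2, ixt_even (by omega)]
    omega

theorem ixs_inj : Function.Injective ixs := Function.LeftInverse.injective ixs_ixs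

theorem ixt_inj : Function.Injective ixt := Function.LeftInverse.injective ixt_ixt

end index

end Pool.Agent.Helper92.HN
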