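import Mathlib
import Pool.Agent.Helper92.HN.Clos
import Pool.Agent.Helper47.HN.Swp
import Pool.Agent.Helper38.HN.Points
import Pool.Agent.Helper23.HNG.Line

/-!
# Project HN: functions which vanish on all curves of the chain
-/

namespace Pool.Agent.Helper92.HN

open MvPolynomial Pool.Agent.Helper28.HN Pool.Agent.Helper47.HN Pool.Agent.Helper23.HNG
  Pool.Agent.Helper38.HN

section rel

variable {m : ℕ}

theorem pr_comm {S : Type*} [CommRing S] (x x' : I m → S) (p : I m × I m) :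
    Pool.Agent.Helper47.NI.pr x x' p = Pool.Agent.Helper47.NI.pr x' x p := by
  simp only [Pool.Agent.Helper47.NI.pr]
  ring

/-- The forms `gG` vanish at the start point `y1`. -/
theorem gG_start {S : Type*} [Field S] (c : Ix m → S) (x0 ξ0 y1 : I m → S) (x00 : x0 0 = 1)
    (ξ00 : ξ0 0 = 0) (hξ : ξ0 ≠ 0) (l0 : ∀ r, lf c r x0 y1 = 0) (l1 : ∀ r, lf c r ξ0 y1 = 0)
    (q0 : qf c x0 x0 y1 y1 = 0) (q1 : qf c x0 ξ0 y1 y1 = 0) (q2 : qf c ξ0 ξ0 y1 y1 = 0)
    (p : I m × I m) : gG c y1 p = 0 := by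
  obtain ⟨l, hl⟩ := Function.ne_iff.mp hξ
  have h := sp_gram (Mq_symm c y1) (isLine_x c l0) (isLine_x c l1) (by rw [← qf_eq]; exact q0)
    0 l p.1 p.2
  have h1 : sp (Mq c y1) ξ0 x0 = 0 := by
    funext i
    rw [sp, ← qf_eq, ← qf_eq, q1, q2]
    simp
  rw [h1, x00, ξ00] at h
  have h2 : Pool.Agent.Helper37.RP.pr x0 (0 : I m → S) p.1 p.2 = 0 := by
    simp [Pool.Agent.Helper37.RP.pr]
  rw [h2, mul_zero] at h
  rw [gG_eq]
  have h3 : (1 * ξ0 l - x0 l * 0) ^ 2 ≠ 0 := by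
    rw [one_mul, mul_zero, sub_zero]
    exact pow_ne_zero 2 hl
  exact (mul_eq_zero.mp h.symm).resolve_left h3

theorem qf_zero1 {S : Type*} [CommRing S] (c : Ix m → S) (x x' y y' : I m → S) (h : x = 0) :
    qf c x x' y y' = 0 := by
  subst h
  simp [qf]

theorem qf_zero3 {S : Type*} [CommRing S] (c : Ix m → S) (x x' y y' : I m → S) (h : y = 0) :
    qf c x x' y y' = 0 := by
  subst h
  simp [qf]

end rel

section main

variable {m : ℕ} {K' k : Type} [Field K'] [Field k] [Algebra K' k]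

/-- The curve `N` over the function field. -/
noncomputable def Xo (k : Type) [Field k] [Algebra K' k] (c : Ix m → K') (x0 ξ0 y1 : I m → K')
    (N : ℕ) (i : I m) : FractionRing (Polynomial k) := toFrac K' k ((ch c x0 ξ0 y1 N).1 i)

/-- The curve `N` over the function field. -/
noncomputable def Yo (k : Type) [Field k] [Algebra K' k] (c : Ix m → K') (x0 ξ0 y1 : I m → K')
    (N : ℕ) (i : I m) : FractionRing (Polynomial k) := toFrac K' k ((ch c x0 ξ0 y1 N).2 i)

theorem toFrac_C (a : K') : toFrac K' k (Polynomial.C a) =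
    algebraMap k (FractionRing (Polynomial k)) (algebraMap K' k a) := by
  rw [toFrac, RingHom.comp_apply, Polynomial.coe_mapRingHom, Polynomial.map_C,
    IsScalarTower.algebraMap_apply k (Polynomial k) (FractionRing (Polynomial k))]
  rfl

variable {c : Ix m → K'} {x0 ξ0 y1 : I m → K'}

theorem ch_odd_x {N : ℕ} (h : N % 2 = 0) : (ch c x0 ξ0 y1 (N + 1)).1 = (ch c x0 ξ0 y1 N).1 := by
  rw [ch, if_pos h]

theorem ch_odd_y {N : ℕ} (h : N % 2 = 0) : (ch c x0 ξ0 y1 (N + 1)).2 =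
    ny (fun e => Polynomial.C (c e)) (ch c x0 ξ0 y1 N).1 (ch c x0 ξ0 y1 N).2 := by
  rw [ch, if_pos h]

theorem ch_even_x {N : ℕ} (h : N % 2 = 1) : (ch c x0 ξ0 y1 (N + 1)).1 =
    nx (fun e => Polynomial.C (c e)) (ch c x0 ξ0 y1 N).1 (ch c x0 ξ0 y1 N).2 := by
  rw [ch, if_neg (by omega)]

theorem ch_even_y {N : ℕ} (h : N % 2 = 1) : (ch c x0 ξ0 y1 (N + 1)).2 = (ch c x0 ξ0 y1 N).2 := by
  rw [ch, if_neg (by omega)]

/-- The points over `Yo N`. -/
theorem rel_x (ho : Orb (k := k) c x0 ξ0 y1) (hξ : ξ0 ≠ 0)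
    (hon : ∀ N, OnX (fun e => Polynomial.C (c e)) (ch c x0 ξ0 y1 N).1 (ch c x0 ξ0 y1 N).2)
    (N : ℕ) : ∃ l : FractionRing (Polynomial k), ∀ p,
      aeval (Yo k c x0 ξ0 y1 N) (cG (fun e => algebraMap K' k (c e)) p) =
        l * Pool.Agent.Helper47.NI.pr (Xo k c x0 ξ0 y1 N) (Xo k c x0 ξ0 y1 (ixs N)) p := by
  have hinj := toFrac_injective (K' := K') k
  have ec : (fun e => algebraMap k (FractionRing (Polynomial k)) (algebraMap K' k (c e))) =
      fun e => toFrac K' k (Polynomial.C (c e)) := by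
    funext e
    rw [toFrac_C]
  have hodd : ∀ N, N % 2 = 1 → ∃ l : FractionRing (Polynomial k), ∀ p,
      aeval (Yo k c x0 ξ0 y1 N) (cG (fun e => algebraMap K' k (c e)) p) =
        l * Pool.Agent.Helper47.NI.pr (Xo k c x0 ξ0 y1 N) (Xo k c x0 ξ0 y1 (N + 1)) p := by
    intro N hN
    have hO : OnX (fun e => toFrac K' k (Polynomial.C (c e))) (Xo k c x0 ξ0 y1 N)
        (Yo k c x0 ξ0 y1 N) := OnX.map (toFrac K' k) (hon N)
    have hex : (fun i => toFrac K' k (xh (fun e => Polynomial.C (c e)) (ch c x0 ξ0 y1 N).2 i)) =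
        xh (fun e => toFrac K' k (Polynomial.C (c e))) (Yo k c x0 ξ0 y1 N) := by
      funext i
      exact Pool.Agent.Helper47.HN.map_xh (toFrac K' k) _ _ i
    have hw : ∃ j l, Xo k c x0 ξ0 y1 N j *
        xh (fun e => toFrac K' k (Polynomial.C (c e))) (Yo k c x0 ξ0 y1 N) l -
        Xo k c x0 ξ0 y1 N l *
        xh (fun e => toFrac K' k (Polynomial.C (c e))) (Yo k c x0 ξ0 y1 N) j ≠ 0 := by
      have h1 : xh (fun e => Polynomial.C (c e)) (ch c x0 ξ0 y1 N).2 ≠ 0 := fun h =>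
        ho.hK N (by omega) (qf_zero1 _ _ _ _ _ h)
      obtain ⟨l, hl⟩ := Function.ne_iff.mp h1
      refine ⟨0, l, ?_⟩
      have h2 : xh (fun e => toFrac K' k (Polynomial.C (c e))) (Yo k c x0 ξ0 y1 N) 0 = 0 := rfl
      rw [h2, mul_zero, sub_zero, ← hex]
      refine mul_ne_zero ?_ ?_
      · exact (map_ne_zero_iff _ hinj).mpr (ho.hx N)
      · exact (map_ne_zero_iff _ hinj).mpr hl
    obtain ⟨t, ht⟩ := gG_nx _ hO hw
    refine ⟨t, fun p => ?_⟩
    rw [Pool.Agent.Helper23.HNG.aeval_cG, ec, ht]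
    congr 2
    funext i
    rw [Xo, ch_even_x hN]
    exact (Pool.Agent.Helper47.HN.map_nx (toFrac K' k) _ _ _ i).symm
  rcases Nat.eq_zero_or_pos N with h0 | h0
  · subst h0
    refine ⟨0, fun p => ?_⟩
    rw [zero_mul, Pool.Agent.Helper23.HNG.aeval_cG, ec]
    have h := gG_start c x0 ξ0 y1 ho.x00 ho.ξ00 hξ ho.l0 ho.l1 ho.q0 ho.q1 ho.q2 p
    have h2 := Pool.Agent.Helper23.HNG.map_gG ((toFrac K' k).comp Polynomial.C) c y1 p
    rw [h, map_zero] at h2
    exact h2.symm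
  · rcases Nat.mod_two_eq_zero_or_one N with h2 | h2
    · obtain ⟨n, rfl⟩ : ∃ n, N = n + 1 := ⟨N - 1, by omega⟩
      obtain ⟨l, hl⟩ := hodd n (by omega)
      refine ⟨l, fun p => ?_⟩
      have e1 : ixs (n + 1) = n := by rw [ixs_even h2 (by omega)]; omega
      have e2 : Yo k c x0 ξ0 y1 (n + 1) = Yo k c x0 ξ0 y1 n := by
        funext i
        rw [Yo, ch_even_y (by omega)]
        rfl
      rw [e1, e2, hl, pr_comm]
    · rw [ixs_odd h2]
      exact hodd N h2

/-- The points over `Xo N`. -/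
theorem rel_y (ho : Orb (k := k) c x0 ξ0 y1)
    (hon : ∀ N, OnX (fun e => Polynomial.C (c e)) (ch c x0 ξ0 y1 N).1 (ch c x0 ξ0 y1 N).2)
    (N : ℕ) : ∃ l : FractionRing (Polynomial k), ∀ p,
      aeval (Xo k c x0 ξ0 y1 N) (cG (swc fun e => algebraMap K' k (c e)) p) =
        l * Pool.Agent.Helper47.NI.pr (Yo k c x0 ξ0 y1 N) (Yo k c x0 ξ0 y1 (ixt N)) p := by
  have hinj := toFrac_injective (K' := K') k
  have ec : (fun e => algebraMap k (FractionRing (Polynomial k))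
      (swc (fun e => algebraMap K' k (c e)) e)) =
      swc fun e => toFrac K' k (Polynomial.C (c e)) := by
    funext e
    simp only [swc]
    rw [toFrac_C]
  have heven : ∀ N, N % 2 = 0 → ∃ l : FractionRing (Polynomial k), ∀ p,
      aeval (Xo k c x0 ξ0 y1 N) (cG (swc fun e => algebraMap K' k (c e)) p) =
        l * Pool.Agent.Helper47.NI.pr (Yo k c x0 ξ0 y1 N) (Yo k c x0 ξ0 y1 (N + 1)) p := by
    intro N hN
    have hO : OnX (fun e => toFrac K' k (Polynomial.C (c e))) (Xo k c x0 ξ0 y1 N)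
        (Yo k c x0 ξ0 y1 N) := OnX.map (toFrac K' k) (hon N)
    have hex : (fun i => toFrac K' k (Y1 (fun e => Polynomial.C (c e)) (ch c x0 ξ0 y1 N).1 i)) =
        Y1 (fun e => toFrac K' k (Polynomial.C (c e))) (Xo k c x0 ξ0 y1 N) := by
      funext i
      exact Pool.Agent.Helper47.HN.map_Y1 (toFrac K' k) _ _ i
    have hw : ∃ j l, Yo k c x0 ξ0 y1 N j *
        Y1 (fun e => toFrac K' k (Polynomial.C (c e))) (Xo k c x0 ξ0 y1 N) l -
        Yo k c x0 ξ0 y1 N l *
        Y1 (fun e => toFrac K' k (Polynomial.C (c e))) (Xo k c x0 ξ0 y1 N) j ≠ 0 := by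
      have h1 : Y1 (fun e => Polynomial.C (c e)) (ch c x0 ξ0 y1 N).1 ≠ 0 := fun h =>
        ho.hA N (qf_zero3 _ _ _ _ _ h)
      obtain ⟨l, hl⟩ := Function.ne_iff.mp h1
      refine ⟨0, l, ?_⟩
      have h2 : Y1 (fun e => toFrac K' k (Polynomial.C (c e))) (Xo k c x0 ξ0 y1 N) 0 = 0 := rfl
      rw [h2, mul_zero, sub_zero, ← hex]
      refine mul_ne_zero ?_ ?_
      · exact (map_ne_zero_iff _ hinj).mpr (ho.hy N)
      · exact (map_ne_zero_iff _ hinj).mpr hl
    obtain ⟨t, ht⟩ := gG_ny _ hO hw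
    refine ⟨t, fun p => ?_⟩
    rw [Pool.Agent.Helper23.HNG.aeval_cG, ec, ht]
    congr 2
    funext i
    rw [Yo, ch_odd_y hN]
    exact (Pool.Agent.Helper47.HN.map_ny (toFrac K' k) _ _ _ i).symm
  rcases Nat.mod_two_eq_zero_or_one N with h2 | h2
  · rw [ixt_even h2]
    exact heven N h2
  · obtain ⟨n, rfl⟩ : ∃ n, N = n + 1 := ⟨N - 1, by omega⟩
    obtain ⟨l, hl⟩ := heven n (by omega)
    refine ⟨l, fun p => ?_⟩
    have e1 : ixt (n + 1) = n := by rw [ixt_odd h2]; omega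
    have e2 : Xo k c x0 ξ0 y1 (n + 1) = Xo k c x0 ξ0 y1 n := by
      funext i
      rw [Xo, ch_odd_x (by omega)]
      rfl
    rw [e1, e2, hl, pr_comm]

theorem fin_of (P : ℕ → I m → Polynomial K') (F1 F2 : MvPolynomial (I m) k)
    (h : {N | aeval (fun i => (P N i).map (algebraMap K' k)) F1 = 0 ∧
      aeval (fun i => (P N i).map (algebraMap K' k)) F2 = 0}.Finite) :
    {N | aeval (fun i => toFrac K' k (P N i)) F1 = 0 ∧
      aeval (fun i => toFrac K' k (P N i)) F2 = 0}.Finite := by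
  have e : ∀ (N : ℕ) (F : MvPolynomial (I m) k), aeval (fun i => toFrac K' k (P N i)) F =
      algebraMap (Polynomial k) (FractionRing (Polynomial k))
        (aeval (fun i => (P N i).map (algebraMap K' k)) F) := by
    intro N F
    exact aeval_algebraMap_apply (FractionRing (Polynomial k))
      (fun i => (P N i).map (algebraMap K' k)) F
  refine h.subset fun N hN => ?_
  simp only [Set.mem_ofPred_eq, e] at hN ⊢
  have hinj := IsFractionRing.injective (Polynomial k) (FractionRing (Polynomial k))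
  exact ⟨(map_eq_zero_iff _ hinj).mp hN.1, (map_eq_zero_iff _ hinj).mp hN.2⟩

end main

section final

variable {m : ℕ} {K K' k : Type} [Field K] [Field K'] [Field k] [Algebra K K'] [Algebra K' k]

/-- A function which vanishes on all curves of the chain is zero on the complete intersection, up
to denominators over `x` or over `y`. -/
theorem closure_F [IsAlgClosed k] [CharZero k] (hm : 1 ≤ m) (c : Ix m → K)
    (x0 ξ0 y1 : I m → K') (ho : Orb (k := k) (fun e => algebraMap K K' (c e)) x0 ξ0 y1)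
    (hξ : ξ0 ≠ 0)
    (hon : ∀ N, OnX (fun e => Polynomial.C (algebraMap K K' (c e)))
      (ch (fun e => algebraMap K K' (c e)) x0 ξ0 y1 N).1
      (ch (fun e => algebraMap K K' (c e)) x0 ξ0 y1 N).2)
    (hd : (dblX fun e => algebraMap K' k (algebraMap K K' (c e))).Dense)
    (hd' : (dblX (swc fun e => algebraMap K' k (algebraMap K K' (c e)))).Dense)
    (hns : NS c) (hns' : NS fun e => c (swp e))
    (F : MvPolynomial (Fin (m + 1) ⊕ Fin (m + 1)) K)
    (hF : ∀ N, val (toFrac K' k) (ch (fun e => algebraMap K K' (c e)) x0 ξ0 y1 N).1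
      (ch (fun e => algebraMap K K' (c e)) x0 ξ0 y1 N).2 F = 0) :
    (∃ n : ℕ, ∀ (S : Type) [CommRing S] [Algebra K S] (x y : Fin (m + 1) → S),
      OnX (fun e => algebraMap K S (c e)) (aff x) (aff y) →
        (aeval x (Ap c) * aeval x (Dp c)) ^ n * aeval (Sum.elim x y) F = 0) ∨
    (∃ n : ℕ, ∀ (S : Type) [CommRing S] [Algebra K S] (x y : Fin (m + 1) → S),
      OnX (fun e => algebraMap K S (c e)) (aff x) (aff y) →
        (aeval y (Ap fun e => c (swp e)) * aeval y (Dp fun e => c (swp e))) ^ n *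
          aeval (Sum.elim x y) F = 0) := by
  obtain ⟨N1, h1, h1'⟩ := exists_normpoly.{0, 0} c hns F
  obtain ⟨N2, h2, h2'⟩ := exists_normpoly'.{0, 0} c hns' F
  by_cases hN1 : N1 = 0
  · exact Or.inl (h1' hN1)
  by_cases hN2 : N2 = 0
  · exact Or.inr (h2' hN2)
  exfalso
  set cK : Ix m → K' := fun e => algebraMap K K' (c e) with hcK
  set φ := toFrac K' k with hφ
  have hinj : Function.Injective φ := toFrac_injective (K' := K') k
  letI : Algebra K (FractionRing (Polynomial k)) :=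
    (φ.comp (Polynomial.C.comp (algebraMap K K'))).toAlgebra
  obtain ⟨d1, H1, hH1, hH1N, hH1v⟩ := exists_homog N1
  obtain ⟨d2, H2, hH2, hH2N, hH2v⟩ := exists_homog N2
  let ι : K →+* k := (algebraMap K' k).comp (algebraMap K K')
  have hmap : ∀ (v : I m → FractionRing (Polynomial k)) (H : MvPolynomial (I m) K),
      aeval v (MvPolynomial.map ι H) = aeval v H := by
    intro v H
    rw [aeval_def, aeval_def, eval₂_map]
    congr 1
    ext a
    exact (toFrac_C (k := k) (algebraMap K K' a)).symm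
  have hX0 : ∀ N, Xo k cK x0 ξ0 y1 N 0 ≠ 0 := fun N => (map_ne_zero_iff _ hinj).mpr (ho.hx N)
  have hY0 : ∀ N, Yo k cK x0 ξ0 y1 N 0 ≠ 0 := fun N => (map_ne_zero_iff _ hinj).mpr (ho.hy N)
  have hO : ∀ N, OnX (fun e => algebraMap K (FractionRing (Polynomial k)) (c e))
      (aff fun i : Fin (m + 1) => Xo k cK x0 ξ0 y1 N i.succ / Xo k cK x0 ξ0 y1 N 0)
      (aff fun i : Fin (m + 1) => Yo k cK x0 ξ0 y1 N i.succ / Yo k cK x0 ξ0 y1 N 0) :=
    fun N => chart_point (hon N) φ (hX0 N) (hY0 N)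
  have hFv : ∀ N, aeval (Sum.elim
      (fun i : Fin (m + 1) => Xo k cK x0 ξ0 y1 N i.succ / Xo k cK x0 ξ0 y1 N 0)
      (fun i : Fin (m + 1) => Yo k cK x0 ξ0 y1 N i.succ / Yo k cK x0 ξ0 y1 N 0)) F = 0 :=
    fun N => hF N
  refine Pool.Agent.Helper47.NI.closure (k := k) (by norm_num) (by omega) (by omega)
    (dblX fun e => algebraMap K' k (cK e)) hd (dense_swap _ hd')
    (Xo k cK x0 ξ0 y1) (Yo k cK x0 ξ0 y1) ixs ixt ixs_inj ixt_inj
    (rel_x ho hξ hon) (rel_y ho hon)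
    (fun F1 F2 e1 e2 a b ab => fin_of (fun N => (ch cK x0 ξ0 y1 N).1) F1 F2
      (ho.fX F1 F2 e1 e2 a b ab))
    (fun F1 F2 e1 e2 a b ab => fin_of (fun N => (ch cK x0 ξ0 y1 N).2) F1 F2
      (ho.fY F1 F2 e1 e2 a b ab))
    (h := MvPolynomial.map ι H1) (g := MvPolynomial.map ι H2) (hH1.map ι) (hH2.map ι) ?_ ?_ ?_ ?_
  · intro h0
    refine hN1 ?_
    rw [← hH1N, (map_eq_zero_iff _ (map_injective ι ι.injective)).mp h0, map_zero]
  · intro h0
    refine hN2 ?_
    rw [← hH2N, (map_eq_zero_iff _ (map_injective ι ι.injective)).mp h0, map_zero]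
  · intro N
    rw [hmap, hH1v _ _ (hX0 N), h1 _ _ _ (hO N) (hFv N), mul_zero]
  · intro N
    rw [hmap, hH2v _ _ (hY0 N), h2 _ _ _ (hO N) (hFv N), mul_zero]

end final

end Pool.Agent.Helper92.HN
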