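import Mathlib
import Pool.Agent.Helper92.GF.Basic
import Pool.Agent.Helper92.HN.Glue

/-!
# Project HN: the chart ideal of a general complete intersection is prime

With generic coefficients the chart ideal is the kernel of an endomorphism of the polynomial ring
(solve for one coefficient of every form), so it is prime.  By generic freeness the denominator
`Ap * Dp` is not a zero divisor modulo the chart ideal for general coefficients, so the chart ideal
is equal to the prime of the component which dominates the space of the `x`.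
-/

namespace Pool.Agent.Helper92.HN

open MvPolynomial Pool.Agent.Helper28.HN Pool.Agent.Helper47.HN

section linear

variable {m : ℕ} {S : Type*} [CommRing S]

theorem lf_addc (c c' : Ix m → S) (r : Fin m) (x y : I m → S) :
    lf (fun e => c e + c' e) r x y = lf c r x y + lf c' r x y := by
  simp only [lf, add_mul, Finset.sum_add_distrib]

theorem qf_addc (c c' : Ix m → S) (x x' y y' : I m → S) :
    qf (fun e => c e + c' e) x x' y y' = qf c x x' y y' + qf c' x x' y y' := by
  have h : ∀ i j k l, pq (fun e => c e + c' e) i j k l = pq c i j k l + pq c' i j k l := by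
    intro i j k l
    simp only [pq]
    ring
  simp only [qf, h, add_mul, Finset.sum_add_distrib]

/-- Coefficients with support at the first coefficient of every form. -/
def sp0 (v : Fin m → S) (w : S) : Ix m → S
  | .inl (r, i, j) => if i = 0 ∧ j = 0 then v r else 0
  | .inr (i, j, k, l) => if i = 0 ∧ j = 0 ∧ k = 0 ∧ l = 0 then w else 0

theorem lf_sp0 (v : Fin m → S) (w : S) (r : Fin m) (x y : I m → S) :
    lf (sp0 v w) r x y = v r * x 0 * y 0 := by
  unfold lf
  rw [Finset.sum_eq_single 0]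
  · rw [Finset.sum_eq_single 0]
    · simp [sp0]
    · intro j _ hj
      simp [sp0, hj]
    · simp
  · intro i _ hi
    refine Finset.sum_eq_zero fun j _ => ?_
    simp [sp0, hi]
  · simp

theorem qf_sp0 (v : Fin m → S) (w : S) (x x' y y' : I m → S) :
    qf (sp0 v w) x x' y y' = 4 * w * x 0 * x' 0 * y 0 * y' 0 := by
  have h : ∀ i j k l, pq (sp0 v w) i j k l =
      if i = 0 ∧ j = 0 ∧ k = 0 ∧ l = 0 then 4 * w else 0 := by
    intro i j k l
    simp only [pq, sp0]
    by_cases h : i = 0 ∧ j = 0 ∧ k = 0 ∧ l = 0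
    · obtain ⟨rfl, rfl, rfl, rfl⟩ := h
      simp only [and_self, if_true]
      ring
    · rw [if_neg h, if_neg h, if_neg (fun h' => h ⟨h'.2.1, h'.1, h'.2.2.1, h'.2.2.2⟩),
        if_neg (fun h' => h ⟨h'.1, h'.2.1, h'.2.2.2, h'.2.2.1⟩),
        if_neg (fun h' => h ⟨h'.2.1, h'.1, h'.2.2.2, h'.2.2.1⟩)]
      ring
  unfold qf
  simp only [h]
  rw [Finset.sum_eq_single 0]
  · rw [Finset.sum_eq_single 0]
    · rw [Finset.sum_eq_single 0]
      · rw [Finset.sum_eq_single 0]
        · simp
        · intro l _ hl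
          simp [hl]
        · simp
      · intro k _ hk
        refine Finset.sum_eq_zero fun l _ => ?_
        simp [hk]
      · simp
    · intro j _ hj
      refine Finset.sum_eq_zero fun k _ => Finset.sum_eq_zero fun l _ => ?_
      simp [hj]
    · simp
  · intro i _ hi
    refine Finset.sum_eq_zero fun j _ => Finset.sum_eq_zero fun k _ =>
      Finset.sum_eq_zero fun l _ => ?_
    simp [hi]
  · simp

end linear

section generic

variable (m : ℕ)

/-- Polynomials in the affine coordinates. -/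
abbrev Pl (m : ℕ) (K : Type*) [CommRing K] := MvPolynomial (Fin (m + 1) ⊕ Fin (m + 1)) K

/-- The ring of the coefficients. -/
abbrev Rg (m : ℕ) := MvPolynomial (Ix m) ℚ

/-- The point `x`. -/
noncomputable def xx (K : Type*) [CommRing K] : I m → Pl m K :=
  aff fun i => (X (.inl i) : MvPolynomial (Fin (m + 1) ⊕ Fin (m + 1)) K)

/-- The point `y`. -/
noncomputable def yy (K : Type*) [CommRing K] : I m → Pl m K :=
  aff fun i => (X (.inr i) : MvPolynomial (Fin (m + 1) ⊕ Fin (m + 1)) K)

/-- The generic coefficients. -/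
noncomputable def gc : Ix m → Rg m := X

/-- The generic coefficients without the first coefficient of every form. -/
noncomputable def c0 (e : Ix m) : Pl m (Rg m) :=
  C (gc m e) + sp0 (fun r => -C (gc m (.inl (r, 0, 0)))) (-C (gc m (.inr (0, 0, 0, 0)))) e

/-- The solution for the first coefficient of every form. -/
noncomputable def cs (e : Ix m) : Pl m (Rg m) :=
  c0 m e + sp0 (fun r => -lf (c0 m) r (xx m (Rg m)) (yy m (Rg m)))
    (-(C (C (1 / 4)) * qf (c0 m) (xx m (Rg m)) (xx m (Rg m)) (yy m (Rg m)) (yy m (Rg m)))) e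

theorem four_quarter : (4 : Pl m (Rg m)) * C (C (1 / 4)) = 1 := by
  have h : (4 : Pl m (Rg m)) = C (C 4) := by
    rw [map_ofNat, map_ofNat]
  rw [h, ← map_mul, ← map_mul]
  norm_num

theorem lf_cs (r : Fin m) : lf (cs m) r (xx m (Rg m)) (yy m (Rg m)) = 0 := by
  unfold cs
  rw [lf_addc, lf_sp0]
  have h1 : xx m (Rg m) 0 = 1 := rfl
  have h2 : yy m (Rg m) 0 = 1 := rfl
  rw [h1, h2]
  ring

theorem qf_cs : qf (cs m) (xx m (Rg m)) (xx m (Rg m)) (yy m (Rg m)) (yy m (Rg m)) = 0 := by
  unfold cs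
  rw [qf_addc, qf_sp0]
  have h1 : xx m (Rg m) 0 = 1 := rfl
  have h2 : yy m (Rg m) 0 = 1 := rfl
  rw [h1, h2]
  linear_combination (-qf (c0 m) (xx m (Rg m)) (xx m (Rg m)) (yy m (Rg m)) (yy m (Rg m))) *
    four_quarter m

/-- The endomorphism which solves for the first coefficients. -/
noncomputable def psi : Pl m (Rg m) →+* Pl m (Rg m) :=
  eval₂Hom (aeval (cs m) : MvPolynomial (Ix m) ℚ →ₐ[ℚ] Pl m (Rg m)).toRingHom X

theorem psi_C (e : Ix m) : psi m (C (gc m e)) = cs m e := by
  rw [psi, coe_eval₂Hom, eval₂_C]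
  exact aeval_X _ _

theorem psi_X (i : Fin (m + 1) ⊕ Fin (m + 1)) : psi m (X i) = X i := by
  rw [psi, coe_eval₂Hom, eval₂_X]

theorem psi_xx : (fun i => psi m (xx m (Rg m) i)) = xx m (Rg m) := by
  unfold xx
  rw [map_affI]
  simp only [psi_X]

theorem psi_yy : (fun i => psi m (yy m (Rg m) i)) = yy m (Rg m) := by
  unfold yy
  rw [map_affI]
  simp only [psi_X]

theorem chart_eq (K : Type*) [CommRing K] (c : Ix m → K) : chartIdeal c =
    Ideal.span (Set.range (fun r : Fin m => lf (fun e => C (c e)) r (xx m K) (yy m K)) ∪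
      {qf (fun e => C (c e)) (xx m K) (xx m K) (yy m K) (yy m K)}) := rfl

theorem le_ker : chartIdeal (gc m) ≤ RingHom.ker (psi m) := by
  rw [chart_eq, Ideal.span_le]
  rintro F (⟨r, rfl⟩ | rfl)
  · show psi m _ = 0
    rw [Pool.Agent.Helper47.HN.map_lf, psi_xx, psi_yy]
    simp only [psi_C]
    exact lf_cs m r
  · show psi m _ = 0
    rw [Pool.Agent.Helper47.HN.map_qf, psi_xx, psi_yy]
    simp only [psi_C]
    exact qf_cs m

theorem mk_cs (e : Ix m) : Ideal.Quotient.mk (chartIdeal (gc m)) (cs m e) =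
    Ideal.Quotient.mk (chartIdeal (gc m)) (C (gc m e)) := by
  rw [Ideal.Quotient.eq]
  have h1 : xx m (Rg m) 0 = 1 := rfl
  have h2 : yy m (Rg m) 0 = 1 := rfl
  have hl : ∀ r, -lf (c0 m) r (xx m (Rg m)) (yy m (Rg m)) - C (gc m (.inl (r, 0, 0))) =
      -lf (fun e => C (gc m e)) r (xx m (Rg m)) (yy m (Rg m)) := by
    intro r
    unfold c0
    rw [lf_addc, lf_sp0, h1, h2]
    ring
  have hq : -(C (C (1 / 4)) * qf (c0 m) (xx m (Rg m)) (xx m (Rg m)) (yy m (Rg m)) (yy m (Rg m))) -
      C (gc m (.inr (0, 0, 0, 0))) = -(C (C (1 / 4)) *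
      qf (fun e => C (gc m e)) (xx m (Rg m)) (xx m (Rg m)) (yy m (Rg m)) (yy m (Rg m))) := by
    unfold c0
    rw [qf_addc, qf_sp0, h1, h2]
    linear_combination (C (gc m (.inr (0, 0, 0, 0)))) * four_quarter m
  rcases e with ⟨r, i, j⟩ | ⟨i, j, k, l⟩
  · by_cases h : i = 0 ∧ j = 0
    · obtain ⟨rfl, rfl⟩ := h
      have e1 : cs m (.inl (r, 0, 0)) - C (gc m (.inl (r, 0, 0))) =
          -lf (fun e => C (gc m e)) r (xx m (Rg m)) (yy m (Rg m)) := by
        rw [← hl]
        simp only [cs, c0, sp0, and_self, if_true]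
        ring
      rw [e1]
      refine (chartIdeal (gc m)).neg_mem ?_
      rw [chart_eq]
      exact Ideal.subset_span (Or.inl ⟨r, rfl⟩)
    · have e1 : cs m (.inl (r, i, j)) - C (gc m (.inl (r, i, j))) = 0 := by
        simp only [cs, c0, sp0, if_neg h]
        ring
      rw [e1]
      exact Ideal.zero_mem _
  · by_cases h : i = 0 ∧ j = 0 ∧ k = 0 ∧ l = 0
    · obtain ⟨rfl, rfl, rfl, rfl⟩ := h
      have e1 : cs m (.inr (0, 0, 0, 0)) - C (gc m (.inr (0, 0, 0, 0))) = -(C (C (1 / 4)) *
          qf (fun e => C (gc m e)) (xx m (Rg m)) (xx m (Rg m)) (yy m (Rg m)) (yy m (Rg m))) := by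
        rw [← hq]
        simp only [cs, c0, sp0, and_self, if_true]
        ring
      rw [e1]
      refine (chartIdeal (gc m)).neg_mem ((chartIdeal (gc m)).mul_mem_left _ ?_)
      rw [chart_eq]
      exact Ideal.subset_span (Or.inr rfl)
    · have e1 : cs m (.inr (i, j, k, l)) - C (gc m (.inr (i, j, k, l))) = 0 := by
        simp only [cs, c0, sp0, if_neg h]
        ring
      rw [e1]
      exact Ideal.zero_mem _

theorem mk_psi (F : Pl m (Rg m)) : Ideal.Quotient.mk (chartIdeal (gc m)) (psi m F) =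
    Ideal.Quotient.mk (chartIdeal (gc m)) F := by
  have h : (Ideal.Quotient.mk (chartIdeal (gc m))).comp (psi m) =
      Ideal.Quotient.mk (chartIdeal (gc m)) := by
    apply MvPolynomial.ringHom_ext'
    · apply MvPolynomial.ringHom_ext
      · intro a
        have e1 : psi m (C (C a)) = C (C a) := by
          rw [psi, coe_eval₂Hom, eval₂_C]
          exact algHom_C (aeval (cs m) : MvPolynomial (Ix m) ℚ →ₐ[ℚ] Pl m (Rg m)) a
        simp only [RingHom.comp_apply, e1]
      · intro e
        have e1 := mk_cs m e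
        rw [← psi_C] at e1
        exact e1
    · intro i
      simp only [RingHom.comp_apply, psi_X]
  exact DFunLike.congr_fun h F

theorem ker_psi : RingHom.ker (psi m) = chartIdeal (gc m) := by
  refine le_antisymm (fun F hF => ?_) (le_ker m)
  rw [← Ideal.Quotient.eq_zero_iff_mem, ← mk_psi, (RingHom.mem_ker).mp hF, map_zero]

theorem prime_gc : (chartIdeal (gc m)).IsPrime := by
  rw [← ker_psi]
  exact RingHom.ker_isPrime _

end generic

section special

variable {m : ℕ}

theorem map_xx {K K' : Type*} [CommRing K] [CommRing K'] (φ : K →+* K') :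
    (fun i => MvPolynomial.map φ (xx m K i)) = xx m K' := by
  unfold xx
  rw [map_affI]
  simp only [map_X]

theorem map_yy {K K' : Type*} [CommRing K] [CommRing K'] (φ : K →+* K') :
    (fun i => MvPolynomial.map φ (yy m K i)) = yy m K' := by
  unfold yy
  rw [map_affI]
  simp only [map_X]

theorem map_chartIdeal {K K' : Type*} [CommRing K] [CommRing K'] (φ : K →+* K') (c : Ix m → K) :
    (chartIdeal c).map (MvPolynomial.map φ) = chartIdeal fun e => φ (c e) := by
  rw [chart_eq, chart_eq, Ideal.map_span, Set.image_union, ← Set.range_comp, Set.image_singleton]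
  have h1 : (⇑(MvPolynomial.map φ : Pl m K →+* Pl m K') ∘ fun r : Fin m =>
      lf (fun e => C (c e)) r (xx m K) (yy m K)) =
      fun r : Fin m => lf (fun e => C (φ (c e))) r (xx m K') (yy m K') := by
    funext r
    rw [Function.comp_apply, Pool.Agent.Helper47.HN.map_lf, map_xx, map_yy]
    simp only [map_C]
  rw [h1, Pool.Agent.Helper47.HN.map_qf, map_xx, map_yy]
  simp only [map_C]

theorem map_ADp {K K' : Type*} [CommRing K] [CommRing K'] (φ : K →+* K') (c : Ix m → K) :
    MvPolynomial.map φ (Ap c * Dp c) = Ap (fun e => φ (c e)) * Dp (fun e => φ (c e)) := by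
  have hx : (fun i => MvPolynomial.map φ
      ((aff X : I m → MvPolynomial (Fin (m + 1)) K) i)) = aff X := by
    rw [map_affI]
    simp only [map_X]
  have h1 : MvPolynomial.map φ (Ap c) = Ap fun e => φ (c e) := by
    unfold Ap
    rw [Pool.Agent.Helper47.HN.map_Ah, hx]
    simp only [map_C]
  have h2 : MvPolynomial.map φ (Dp c) = Dp fun e => φ (c e) := by
    unfold Dp
    rw [Pool.Agent.Helper47.HN.map_Mx_det, hx]
    simp only [map_C]
  rw [map_mul, h1, h2]

/-- For general coefficients the denominator is not a zero divisor modulo the chart ideal. -/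
theorem chart_nzd (hex : ∃ c : Ix m → ℚ, NS c ∧ Dp c ≠ 0) :
    ∃ Δ : MvPolynomial (Ix m) ℚ, Δ ≠ 0 ∧ ∀ (K : Type) [Field K] [Algebra ℚ K] (c : Ix m → K),
      aeval c Δ ≠ 0 → ∀ F : MvPolynomial (Fin (m + 1) ⊕ Fin (m + 1)) K,
        rename Sum.inl (Ap c * Dp c) * F ∈ chartIdeal c → F ∈ chartIdeal c := by
  obtain ⟨c1, hns, hD⟩ := hex
  have hprime := prime_gc m
  have hden : (rename Sum.inl (Ap (gc m) * Dp (gc m)) : Pl m (Rg m)) ∉ chartIdeal (gc m) := by
    intro h
    have h1 := Ideal.mem_map_of_mem (MvPolynomial.map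
      ((aeval c1 : MvPolynomial (Ix m) ℚ →ₐ[ℚ] ℚ) : MvPolynomial (Ix m) ℚ →+* ℚ)) h
    have e1 : (fun e => ((aeval c1 : MvPolynomial (Ix m) ℚ →ₐ[ℚ] ℚ) :
        MvPolynomial (Ix m) ℚ →+* ℚ) (gc m e)) = c1 := by
      funext e
      exact aeval_X c1 e
    rw [map_chartIdeal, MvPolynomial.map_rename, map_ADp, e1] at h1
    obtain ⟨P, hP, hle, hdom⟩ := exists_dom hns.Ap_ne hD
    exact mul_ne_zero hns.Ap_ne hD (hdom _ (hle h1))
  obtain ⟨Δ, hΔ, H⟩ := Pool.Agent.Helper92.GF.exists_nzd.{0, 0, 0} (chartIdeal (gc m))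
    (rename Sum.inl (Ap (gc m) * Dp (gc m))) fun F hF =>
      (hprime.mem_or_mem hF).resolve_left hden
  refine ⟨Δ, hΔ, fun K _ _ c hc F hF => ?_⟩
  have e1 : (fun e => ((aeval c : MvPolynomial (Ix m) ℚ →ₐ[ℚ] K) :
      MvPolynomial (Ix m) ℚ →+* K) (gc m e)) = c := by
    funext e
    exact aeval_X c e
  have h1 := H K ((aeval c : MvPolynomial (Ix m) ℚ →ₐ[ℚ] K) : MvPolynomial (Ix m) ℚ →+* K) hc F
  rw [map_chartIdeal, MvPolynomial.map_rename, map_ADp, e1] at h1
  exact h1 hF

/-- If the denominator is not a zero divisor, the chart ideal is the prime of the component which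
dominates the space of the `x`. -/
theorem chart_eq_dom {K : Type} [Field K] {c : Ix m → K} (hns : NS c) (hD : Dp c ≠ 0)
    (hnz : ∀ F : MvPolynomial (Fin (m + 1) ⊕ Fin (m + 1)) K,
      rename Sum.inl (Ap c * Dp c) * F ∈ chartIdeal c → F ∈ chartIdeal c) :
    (chartIdeal c).IsPrime ∧ Dom (chartIdeal c) := by
  obtain ⟨P, hP, hle, hdom⟩ := exists_dom hns.Ap_ne hD
  have heq : chartIdeal c = P := by
    refine le_antisymm hle fun F hF => ?_
    obtain ⟨n, hn⟩ := vanish_of_mem hns hle hdom hF
    have h1 := hn _ _ _ (onX_q (chartIdeal c) le_rfl)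
    rw [aeval_q, ← map_mul, aeval_qx, ← map_pow, ← map_mul, Ideal.Quotient.eq_zero_iff_mem] at h1
    clear hn
    induction n with
    | zero => rwa [pow_zero, one_mul] at h1
    | succ n ih =>
      apply ih
      apply hnz
      rw [← mul_assoc, ← pow_succ']
      exact h1
  rw [heq]
  exact ⟨hP, hdom⟩

/-- The chart ideal and the exchange of the factors. -/
theorem rename_swap_mem {K : Type*} [CommRing K] (c : Ix m → K)
    {F : MvPolynomial (Fin (m + 1) ⊕ Fin (m + 1)) K} (hF : F ∈ chartIdeal c) :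
    rename Sum.swap F ∈ chartIdeal (Pool.Agent.Helper23.HNG.swc c) := by
  let ρ : Pl m K →+* Pl m K :=
    (rename Sum.swap : MvPolynomial (Fin (m + 1) ⊕ Fin (m + 1)) K →ₐ[K] _).toRingHom
  have hρ : ∀ F, ρ F = rename Sum.swap F := fun F => rfl
  have hx : (fun i => ρ (xx m K i)) = yy m K := by
    unfold xx yy
    rw [map_affI]
    simp only [hρ, rename_X, Sum.swap_inl]
  have hy : (fun i => ρ (yy m K i)) = xx m K := by
    unfold xx yy
    rw [map_affI]
    simp only [hρ, rename_X, Sum.swap_inr]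
  have hc : (fun e => ρ (C (c e))) = fun e => (C (c e) : Pl m K) := by
    funext e
    rw [hρ, rename_C]
  have h : chartIdeal c ≤ (chartIdeal (Pool.Agent.Helper23.HNG.swc c)).comap ρ := by
    rw [chart_eq, Ideal.span_le]
    rintro G (⟨r, rfl⟩ | rfl)
    · rw [SetLike.mem_coe, Ideal.mem_comap, Pool.Agent.Helper47.HN.map_lf, hx, hy, hc,
        ← Pool.Agent.Helper23.HNG.lf_sw (fun e => (C (c e) : Pl m K)), chart_eq]
      exact Ideal.subset_span (Or.inl ⟨r, rfl⟩)
    · rw [SetLike.mem_coe, Ideal.mem_comap, Pool.Agent.Helper47.HN.map_qf, hx, hy, hc,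
        ← Pool.Agent.Helper23.HNG.qf_sw (fun e => (C (c e) : Pl m K)), chart_eq]
      exact Ideal.subset_span (Or.inr rfl)
  exact h hF

/-- No nonzero polynomial in the coordinates of `y` is in the ideal. -/
theorem dom_y {K : Type*} [Field K] {c : Ix m → K}
    (h : Dom (chartIdeal (Pool.Agent.Helper23.HNG.swc c))) (Φ : MvPolynomial (Fin (m + 1)) K)
    (hΦ : rename Sum.inr Φ ∈ chartIdeal c) : Φ = 0 := by
  apply h
  have h1 := rename_swap_mem c hΦ
  rw [rename_rename] at h1
  exact h1

end special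

end Pool.Agent.Helper92.HN
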