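import Mathlib
import Pool.Agent.Helper92.HN.Gen

/-!
# Project HN: the final theorem from the three inputs, for the chart ideal itself
-/

namespace Pool.Agent.Helper92.HN

open MvPolynomial Pool.Agent.Helper28.HN Pool.Agent.Helper47.HN Pool.Agent.Helper23.HNG
  AlgebraicGeometry CategoryTheory Pool.Agent.Helper15

theorem exists_rat {ι : Type*} {Δ : MvPolynomial ι ℚ} (h : Δ ≠ 0) :
    ∃ c : ι → ℚ, aeval c Δ ≠ 0 := by
  by_contra hcon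
  push Not at hcon
  apply h
  apply MvPolynomial.funext
  intro c
  rw [map_zero]
  have := hcon c
  rwa [aeval_eq_eval] at this

theorem full_of {m : ℕ} (hm : 1 ≤ m)
    (hdens : ∃ Δ : MvPolynomial (Ix m) ℚ, Δ ≠ 0 ∧ ∀ (k : Type) [Field k] [IsAlgClosed k]
      [Algebra ℚ k] (c : Ix m → k), aeval c Δ ≠ 0 → (dblX c).Dense)
    (hNS : ∃ Δ : MvPolynomial (Ix m) ℚ, Δ ≠ 0 ∧ ∀ (K : Type) [Field K] [NumberField K]
      (c : Ix m → K), aeval c Δ ≠ 0 → NS c ∧ Dp c ≠ 0)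
    (horb : ∃ Δ : MvPolynomial (Ix m) ℚ, Δ ≠ 0 ∧
    ∀ (K : Type) [Field K] [NumberField K] (c : Ix m → K), aeval c Δ ≠ 0 →
      ∃ (K' : Type) (_ : Field K') (_ : NumberField K') (_ : Algebra K K') (k : Type) (_ : Field k)
        (_ : IsAlgClosed k) (_ : CharZero k) (_ : Algebra K' k) (x0 ξ0 y1 : I m → K'),
        Orb (k := k) (fun e => algebraMap K K' (c e)) x0 ξ0 y1) :
    ∃ Δ : MvPolynomial (Ix m) ℚ, Δ ≠ 0 ∧ ∀ (K : Type) [Field K] [NumberField K]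
    (c : Ix m → K), aeval c Δ ≠ 0 →
      (chartIdeal c).IsPrime ∧
      (∀ Φ : MvPolynomial (Fin (m + 1)) K,
        rename Sum.inl Φ ∈ chartIdeal c ∨ rename Sum.inr Φ ∈ chartIdeal c → Φ = 0) ∧
      Algebra.trdeg K (MvPolynomial (Fin (m + 1) ⊕ Fin (m + 1)) K ⧸ chartIdeal c) =
        (m + 1 : ℕ) ∧
      ∀ (X : Scheme.{0}) (s : X ⟶ Spec (CommRingCat.of K)) [IrreducibleSpace X],
        BirationalOver K X (Spec (CommRingCat.of
          (MvPolynomial (Fin (m + 1) ⊕ Fin (m + 1)) K ⧸ chartIdeal c))) s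
          (Spec.map (CommRingCat.ofHom (algebraMap K
            (MvPolynomial (Fin (m + 1) ⊕ Fin (m + 1)) K ⧸ chartIdeal c)))) →
        PotentiallyDense K X s := by
  obtain ⟨Δ2, hΔ2, H2⟩ := hNS
  obtain ⟨Δ1, hΔ1, H1⟩ := final_of hm hdens
    ⟨Δ2, hΔ2, fun K _ _ c hc => (H2 K c hc).1⟩ horb
  obtain ⟨Δ3, hΔ3, H3⟩ : ∃ Δ : MvPolynomial (Ix m) ℚ, Δ ≠ 0 ∧
      ∀ (K : Type) [Field K] [Algebra ℚ K] (c : Ix m → K),
      aeval c Δ ≠ 0 → ∀ F : MvPolynomial (Fin (m + 1) ⊕ Fin (m + 1)) K,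
        rename Sum.inl (Ap c * Dp c) * F ∈ chartIdeal c → F ∈ chartIdeal c := by
    apply chart_nzd
    obtain ⟨c, hc⟩ := exists_rat hΔ2
    exact ⟨c, H2 ℚ c hc⟩
  have hsw : Function.Injective (sw (m := m)) := Function.LeftInverse.injective sw_sw
  refine ⟨Δ1 * (Δ2 * rename sw Δ2) * (Δ3 * rename sw Δ3),
    mul_ne_zero (mul_ne_zero hΔ1 (mul_ne_zero hΔ2
    ((map_ne_zero_iff _ (rename_injective _ hsw)).mpr hΔ2))) (mul_ne_zero hΔ3
    ((map_ne_zero_iff _ (rename_injective _ hsw)).mpr hΔ3)),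
    fun K _ _ c hc => ?_⟩
  simp only [map_mul, mul_ne_zero_iff, aeval_rename] at hc
  obtain ⟨⟨h1, h2, h2'⟩, h3, h3'⟩ := hc
  obtain ⟨-, H⟩ := H1 K c h1
  obtain ⟨hns, hDp⟩ := H2 K c h2
  obtain ⟨hns', hDp'⟩ := H2 K (swc c) h2'
  obtain ⟨hprime, hdom⟩ := chart_eq_dom hns hDp (H3 K c h3)
  obtain ⟨-, hdom'⟩ := chart_eq_dom hns' hDp' (H3 K (swc c) h3')
  obtain ⟨ht, hpd⟩ := H (chartIdeal c) hprime le_rfl hdom
  refine ⟨hprime, fun Φ hΦ => ?_, ht, hpd⟩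
  rcases hΦ with hΦ | hΦ
  · exact hdom Φ hΦ
  · exact dom_y hdom' Φ hΦ

end Pool.Agent.Helper92.HN
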