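import Mathlib
import Pool.Agent.Helper92.HN.Full
import Pool.Agent.Helper23.HNG.Dens
import Pool.Agent.Helper77.HN.NS
import Pool.Agent.Helper76.XN.Cfg

/-!
# Project HN: the final theorem from the chain of curves
-/

namespace Pool.Agent.Helper92.HN

open MvPolynomial Pool.Agent.Helper28.HN Pool.Agent.Helper47.HN Pool.Agent.Helper23.HNG
  AlgebraicGeometry CategoryTheory Pool.Agent.Helper15

theorem main_of {m : ℕ} (hm : 4 ≤ m)
    (horb : ∃ Δ : MvPolynomial (Ix m) ℚ, Δ ≠ 0 ∧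
    ∀ (K : Type) [Field K] [NumberField K] (c : Ix m → K), aeval c Δ ≠ 0 →
      ∃ (K' : Type) (_ : Field K') (_ : NumberField K') (_ : Algebra K K') (k : Type) (_ : Field k)
        (_ : IsAlgClosed k) (_ : CharZero k) (_ : Algebra K' k) (x0 ξ0 y1 : I m → K'),
        Orb (k := k) (fun e => algebraMap K K' (c e)) x0 ξ0 y1) :
    ∃ Δ : MvPolynomial (Ix m) ℚ, Δ ≠ 0 ∧ ∀ (K : Type) [Field K] [NumberField K]
    (c : Ix m → K), aeval c Δ ≠ 0 →
      (chartIdeal c).IsPrime ∧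
      (∀ Φ : MvPolynomial (Fin (m + 1)) K,
        rename Sum.inl Φ ∈ chartIdeal c ∨ rename Sum.inr Φ ∈ chartIdeal c → Φ = 0) ∧
      Algebra.trdeg K (MvPolynomial (Fin (m + 1) ⊕ Fin (m + 1)) K ⧸ chartIdeal c) =
        (m + 1 : ℕ) ∧
      ∀ (X : Scheme.{0}) (s : X ⟶ Spec (CommRingCat.of K)) [IrreducibleSpace X],
        BirationalOver K X (Spec (CommRingCat.of
          (MvPolynomial (Fin (m + 1) ⊕ Fin (m + 1)) K ⧸ chartIdeal c))) s
          (Spec.map (CommRingCat.ofHom (algebraMap K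
            (MvPolynomial (Fin (m + 1) ⊕ Fin (m + 1)) K ⧸ chartIdeal c)))) →
        PotentiallyDense K X s := by
  refine full_of (by omega) ?_ (Pool.Agent.Helper77.HN.exists_ns_of hm
    (Pool.Agent.Helper76.XN.exists_cfg hm)) horb
  obtain ⟨Δ, h1, h2⟩ := dense_both (m := m) (by omega)
  exact ⟨Δ, h1, fun k _ _ _ c hc => (h2 k c hc).1⟩

end Pool.Agent.Helper92.HN
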