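import Mathlib
import Pool.Agent.Helper92.HN.Main
import Pool.Agent.Helper28.HN.OrbF

/-!
# Project HN: the final theorem for type 1
-/

namespace Pool.Agent.Helper92.HN

open MvPolynomial Pool.Agent.Helper28.HN Pool.Agent.Helper47.HN
  AlgebraicGeometry CategoryTheory Pool.Agent.Helper15

theorem final {m : ℕ} (hm : 4 ≤ m) :
    ∃ Δ : MvPolynomial (Ix m) ℚ, Δ ≠ 0 ∧ ∀ (K : Type) [Field K] [NumberField K]
    (c : Ix m → K), aeval c Δ ≠ 0 →
      (chartIdeal c).IsPrime ∧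
      (∀ Φ : MvPolynomial (Fin (m + 1)) K,
        rename Sum.inl Φ ∈ chartIdeal c ∨ rename Sum.inr Φ ∈ chartIdeal c → Φ = 0) ∧
      Algebra.trdeg K (MvPolynomial (Fin (m + 1) ⊕ Fin (m + 1)) K ⧸ chartIdeal c) =
        (m + 1 : ℕ) ∧
      ∀ (X : Scheme.{0}) (s : X ⟶ Spec (CommRingCat.of K)) [IrreducibleSpace X],
        BirationalOver K X (Spec (CommRingCat.of
          (MvPolynomial (Fin (m + 1) ⊕ Fin (m + 1)) K ⧸ chartIdeal c))) s
          (Spec.map (CommRingCat.ofHom (algebraMap K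
            (MvPolynomial (Fin (m + 1) ⊕ Fin (m + 1)) K ⧸ chartIdeal c)))) →
        PotentiallyDense K X s :=
  main_of hm (Pool.Agent.Helper28.HN.OrbF.orb hm)

end Pool.Agent.Helper92.HN
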